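import Pool.Agent.Y990.CB.Stm2
import Pool.Agent.Y960.CB.Two

set_option autoImplicit false

open MeasureTheory Set

/-! CB-TWO2 of project CB (helper990): the two-arm bound for boxes of polynomial size. -/

namespace Pool.Agent.Y815.CB

open Pool.Agent.Y990.CB Pool.Agent.Y960.CB

variable {d : ℕ}

theorem Ta_sub2 (M : Mod d) {u : Z d} {k n L Q : ℕ} (hQ1 : 1 ≤ Q) (hkn : k ≤ n) (hn : n ≤ Q)
    (hL : 8 * Q ≤ L) (hu : u ∈ Bo (0 : Z d) Q) :
    Ta M u k L ⊆ ⋃ x ∈ Bf u n, ⋃ y ∈ Bf u n, Ev M (4 * Q) Q x y := by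
  rintro ω ⟨x, hx, y, hy, hAx, hAy, hxy⟩
  simp only [mem_iUnion]
  refine ⟨x, mem_Bf.2 (Bo_mono u hkn hx), y, mem_Bf.2 (Bo_mono u hkn hy), ?_⟩
  refine ⟨arm_card hQ1 (hkn.trans hn) hL hu hx hAx, arm_card hQ1 (hkn.trans hn) hL hu hy hAy,
    fun hc => hxy ?_⟩
  refine reach_mono (R' := Bo u L) ?_ hc
  exact Bo_sub (mem_Bo_comm.1 hu) (by omega)

theorem two2 (hbox : S_box2) (htau : S_tau) : S_two2 := by
  classical
  intro d M hd hNd hQm
  obtain ⟨hpc, c, hc, hlow⟩ := htau d M hd hNd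
  obtain ⟨C₀, hC₀, hb⟩ := hbox d M (pc M) hNd hQm hpc
  set C₁ : ℝ := C₀ * 4 ^ d * 4 * 2 ^ (3 * d) / c with hC₁
  have hC₁0 : 0 ≤ C₁ := by positivity
  refine ⟨16 + C₁, by linarith, fun z k L hL => ?_⟩
  set e : ℕ := 2 * d ^ 2 + 3 * d with he
  have he1 : 1 ≤ e := by
    have : 1 ≤ 3 * d := by omega
    omega
  have hLR : (0 : ℝ) < L := by exact_mod_cast hL
  have hL1 : (1 : ℝ) ≤ L := by exact_mod_cast hL
  have hsL : 0 < √(L : ℝ) := Real.sqrt_pos.2 hLR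
  have hk1 : (1 : ℝ) ≤ (k : ℝ) + 1 := by
    have : (0 : ℝ) ≤ k := Nat.cast_nonneg k
    linarith
  have hke : (k : ℝ) + 1 ≤ ((k : ℝ) + 1) ^ e := le_self_pow₀ hk1 (by omega)
  set n : ℕ := max k 1 with hn
  have hkn : k ≤ n := le_max_left _ _
  have hn1 : 1 ≤ n := le_max_right _ _
  have hnk : n ≤ k + 1 := by omega
  set Q := L / 8 with hQ
  by_cases hnQ : Q < 2 * n
  · -- trivial case
    have h1 : L < 16 * n := by omega
    have h2 : (L : ℝ) ≤ 16 * ((k : ℝ) + 1) := by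
      have : L ≤ 16 * (k + 1) := by omega
      exact_mod_cast this
    have h4 : √(L : ℝ) ≤ L := by
      rw [Real.sqrt_le_left hLR.le]
      nlinarith
    calc (mu M (pc M)).real (Ta M z k L) ≤ 1 := measureReal_le_one
      _ ≤ (16 + C₁) * ((k : ℝ) + 1) ^ e / √(L : ℝ) := by
        rw [one_le_div hsL]
        calc √(L : ℝ) ≤ L := h4
          _ ≤ 16 * ((k : ℝ) + 1) := h2
          _ ≤ 16 * ((k : ℝ) + 1) ^ e := by linarith
          _ ≤ (16 + C₁) * ((k : ℝ) + 1) ^ e := by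
            refine mul_le_mul_of_nonneg_right (by linarith) (by positivity)
  rw [not_lt] at hnQ
  have hQ2 : 2 ≤ Q := by omega
  have h8Q : 8 * Q ≤ L := by omega
  have hQR : (2 : ℝ) ≤ Q := by exact_mod_cast hQ2
  have hsQ : 0 < √(Q : ℝ) := Real.sqrt_pos.2 (by linarith)
  -- translation
  have hTa : ∀ u : Z d, (mu M (pc M)).real (Ta M u k L) = (mu M (pc M)).real (Ta M 0 k L) := by
    intro u
    have := Ta_shift M (pc M) 0 u k L
    rwa [zero_add] at this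
  rw [hTa z]
  set T := (mu M (pc M)).real (Ta M 0 k L) with hT
  have h1 : ∀ u ∈ Bf (0 : Z d) Q, T ≤ ∑ x ∈ Bf u n, ∑ y ∈ Bf u n,
      (mu M (pc M)).real (Ev M (4 * Q) Q x y) := by
    intro u hu
    rw [mem_Bf] at hu
    rw [← hTa u]
    refine (measureReal_mono (Ta_sub2 M (by omega) hkn (by omega) h8Q hu)
      (measure_ne_top _ _)).trans ?_
    refine (measureReal_biUnion_finset_le _ _).trans (Finset.sum_le_sum fun a _ => ?_)
    exact measureReal_biUnion_finset_le _ _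
  have h2 : ((Bf (0 : Z d) Q).card : ℝ) * T ≤ ∑ u ∈ Bf (0 : Z d) Q, ∑ x ∈ Bf u n, ∑ y ∈ Bf u n,
      (mu M (pc M)).real (Ev M (4 * Q) Q x y) := by
    rw [← nsmul_eq_mul]
    exact Finset.card_nsmul_le_sum _ _ _ h1
  have hnR : (0 : ℝ) < n := by exact_mod_cast hn1
  have hτ : 0 < c / (n : ℝ) ^ (2 * d ^ 2) := by positivity
  have h3 := hb (4 * Q) Q n Q (c / (n : ℝ) ^ (2 * d ^ 2)) hQ2 (by omega) hτ
    (fun u _ x hx y hy => hlow n u x y hn1 (mem_Bf.1 hx) (mem_Bf.1 hy))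
  have h4 := h2.trans h3
  rw [card_Bf] at h4
  push_cast at h4
  have hQd : (0 : ℝ) < (2 * (Q : ℝ) + 1) ^ d := by positivity
  -- elementary estimates
  have e1 : (2 * (4 * (Q : ℝ)) + 1) ^ d ≤ 4 ^ d * (2 * (Q : ℝ) + 1) ^ d := by
    rw [← mul_pow]
    refine pow_le_pow_left₀ (by positivity) ?_ _
    linarith
  have e2 : 1 / √(Q : ℝ) ≤ 4 / √(L : ℝ) := by
    rw [div_le_div_iff₀ hsQ hsL, one_mul]
    have h6 : (L : ℝ) ≤ 4 ^ 2 * Q := by
      have : L ≤ 16 * Q := by omega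
      have h7 : (L : ℝ) ≤ 16 * Q := by exact_mod_cast this
      linarith
    calc √(L : ℝ) ≤ √(4 ^ 2 * (Q : ℝ)) := Real.sqrt_le_sqrt h6
      _ = 4 * √(Q : ℝ) := by rw [Real.sqrt_mul (by norm_num), Real.sqrt_sq (by norm_num)]
  have e3 : C₀ / (c / (n : ℝ) ^ (2 * d ^ 2)) ≤ C₀ / c * ((k : ℝ) + 1) ^ (2 * d ^ 2) := by
    have h5 : (n : ℝ) ^ (2 * d ^ 2) ≤ ((k : ℝ) + 1) ^ (2 * d ^ 2) := by
      refine pow_le_pow_left₀ hnR.le ?_ _
      exact_mod_cast hnk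
    have h6 : C₀ / (c / (n : ℝ) ^ (2 * d ^ 2)) = C₀ / c * (n : ℝ) ^ (2 * d ^ 2) := by
      field_simp
    rw [h6]
    exact mul_le_mul_of_nonneg_left h5 (by positivity)
  have e4 : ((n : ℝ) + 1) ^ (3 * d) ≤ 2 ^ (3 * d) * ((k : ℝ) + 1) ^ (3 * d) := by
    rw [← mul_pow]
    refine pow_le_pow_left₀ (by positivity) ?_ _
    have : (n : ℝ) ≤ (k : ℝ) + 1 := by exact_mod_cast hnk
    linarith
  have h5 : (2 * (Q : ℝ) + 1) ^ d * T ≤ (2 * (Q : ℝ) + 1) ^ d *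
      (C₁ * ((k : ℝ) + 1) ^ e / √(L : ℝ)) := by
    refine h4.trans ?_
    rw [div_eq_mul_one_div]
    calc C₀ / (c / (n : ℝ) ^ (2 * d ^ 2)) * ((n : ℝ) + 1) ^ (3 * d) *
          (2 * (4 * (Q : ℝ)) + 1) ^ d * (1 / √(Q : ℝ))
        ≤ (C₀ / c * ((k : ℝ) + 1) ^ (2 * d ^ 2)) * (2 ^ (3 * d) * ((k : ℝ) + 1) ^ (3 * d)) *
          (4 ^ d * (2 * (Q : ℝ) + 1) ^ d) * (4 / √(L : ℝ)) := by
          refine mul_le_mul (mul_le_mul (mul_le_mul e3 e4 (by positivity) (by positivity)) e1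
            (by positivity) (by positivity)) e2 (by positivity) (by positivity)
      _ = _ := by
          rw [hC₁, he, pow_add]
          ring
  have h6 : T ≤ C₁ * ((k : ℝ) + 1) ^ e / √(L : ℝ) := le_of_mul_le_mul_left h5 hQd
  refine h6.trans ?_
  refine div_le_div_of_nonneg_right ?_ hsL.le
  refine mul_le_mul_of_nonneg_right (by linarith) (by positivity)

end Pool.Agent.Y815.CB
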